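import Pool.Agent.H143R3.BT.Stmts

/-! helper826: task BT-R1 of project H143-BT (lower bound on the law of the maximum of Brownian
motion, by Lévy's inequality on grids). -/

set_option autoImplicit false

namespace Pool.Agent.H826R3.BT

open MeasureTheory ProbabilityTheory Filter Topology
open scoped ENNReal NNReal
open Pool.Agent.H143R3.BT

universe v

/-- the grid with `n` steps -/
noncomputable def gr (s : ℝ≥0) (n j : ℕ) : ℝ≥0 := s * min ((j : ℝ≥0) / n) 1

lemma gr_mono (s : ℝ≥0) (n : ℕ) : Monotone (gr s n) := by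
  intro i j h
  unfold gr
  have h1 : (i : ℝ≥0) / n ≤ (j : ℝ≥0) / n := by
    have : (i : ℝ≥0) ≤ j := by exact_mod_cast h
    gcongr
  exact mul_le_mul_right (min_le_min_right 1 h1) s

lemma gr_zero (s : ℝ≥0) (n : ℕ) : gr s n 0 = 0 := by simp [gr]

lemma gr_self (s : ℝ≥0) (n : ℕ) (hn : 0 < n) : gr s n n = s := by
  have : (n : ℝ≥0) ≠ 0 := by exact_mod_cast hn.ne'
  simp [gr, div_self this]

lemma half_le (w : ℝ≥0) : (1 / 2 : ℝ≥0∞) ≤ gaussianReal 0 w (Set.Ici 0) := by
  have h1 : gaussianReal 0 w (Set.Iic 0) = gaussianReal 0 w (Set.Ici 0) := by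
    have h : (gaussianReal 0 w).map (fun x => -x) = gaussianReal 0 w := by
      have := gaussianReal_map_neg (μ := 0) (v := w)
      rwa [neg_zero] at this
    calc gaussianReal 0 w (Set.Iic 0)
        = ((gaussianReal 0 w).map (fun x => -x)) (Set.Iic 0) := by rw [h]
      _ = gaussianReal 0 w ((fun x => -x) ⁻¹' Set.Iic 0) :=
          Measure.map_apply measurable_neg measurableSet_Iic
      _ = gaussianReal 0 w (Set.Ici 0) := by
          congr 1
          ext x
          simp
  have h2 : (1 : ℝ≥0∞) ≤ gaussianReal 0 w (Set.Iic 0) + gaussianReal 0 w (Set.Ici 0) := by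
    rw [← measure_univ (μ := gaussianReal 0 w)]
    refine le_trans (measure_mono ?_) (measure_union_le _ _)
    intro x _
    exact le_total x 0
  rw [h1, ← mul_two] at h2
  exact ENNReal.div_le_of_le_mul h2

section Levy

variable {Ω : Type v} [MeasurableSpace Ω] (P : Measure Ω) [IsProbabilityMeasure P]
  (W : ℝ≥0 → Ω → ℝ)

/-- first passage event -/
def fp (t : ℕ → ℝ≥0) (r : ℝ) (j : ℕ) : Set Ω :=
  {ω | (∀ i < j, W (t i) ω - W (t 0) ω ≤ r) ∧ r < W (t j) ω - W (t 0) ω}

lemma fp_indep (hW : IsBM P W) (t : ℕ → ℝ≥0) (ht : Monotone t) (n j : ℕ) (hj : j ≤ n) (r : ℝ) :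
    P (fp W t r j ∩ {ω | 0 ≤ W (t n) ω - W (t j) ω}) =
      P (fp W t r j) * P {ω | 0 ≤ W (t n) ω - W (t j) ω} := by
  classical
  set τ : ℕ → ℝ≥0 := fun i => if i ≤ j then t i else t n with hτ
  have hτm : Monotone τ := by
    intro a b hab
    simp only [hτ]
    by_cases ha : a ≤ j
    · by_cases hb : b ≤ j
      · rw [if_pos ha, if_pos hb]; exact ht hab
      · rw [if_pos ha, if_neg hb]; exact ht (ha.trans hj)
    · have hb : ¬ b ≤ j := fun h => ha (hab.trans h)
      rw [if_neg ha, if_neg hb]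
  have hind := hW.indep.nat hτm
  have hmeas : ∀ i, Measurable (fun ω => W (τ (i + 1)) ω - W (τ i) ω) := fun i =>
    (hW.meas _).sub (hW.meas _)
  have hI := hind.indepFun_finset (Finset.range j) {j} (by simp) hmeas
  rw [IndepFun_iff_Indep] at hI
  set f : Ω → (Finset.range j → ℝ) :=
    fun a (i : Finset.range j) => W (τ (i + 1)) a - W (τ i) a with hf
  set g : Ω → (({j} : Finset ℕ) → ℝ) :=
    fun a (i : ({j} : Finset ℕ)) => W (τ (i + 1)) a - W (τ i) a with hg
  have hinc : ∀ k < j, Measurable[MeasurableSpace.comap f inferInstance]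
      (fun ω => W (τ (k + 1)) ω - W (τ k) ω) := by
    intro k hk
    have h1 : (fun ω => W (τ (k + 1)) ω - W (τ k) ω) =
        (fun x : Finset.range j → ℝ => x ⟨k, Finset.mem_range.2 hk⟩) ∘ f := rfl
    rw [h1]
    exact (measurable_pi_apply _).comp (comap_measurable f)
  have hV : ∀ i ≤ j, Measurable[MeasurableSpace.comap f inferInstance]
      (fun ω => W (t i) ω - W (t 0) ω) := by
    intro i hi
    have h1 : (fun ω => W (t i) ω - W (t 0) ω) =
        fun ω => ∑ k ∈ Finset.range i, (W (τ (k + 1)) ω - W (τ k) ω) := by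
      funext ω
      rw [Finset.sum_range_sub (fun k => W (τ k) ω)]
      simp only [hτ, if_pos hi, if_pos (Nat.zero_le j)]
    rw [h1]
    exact Finset.measurable_sum _ fun k hk =>
      hinc k ((Finset.mem_range.1 hk).trans_le hi)
  have hA : MeasurableSet[MeasurableSpace.comap f inferInstance] (fp W t r j) := by
    have h1 : fp W t r j = (⋂ i ∈ Finset.range j, {ω | W (t i) ω - W (t 0) ω ≤ r}) ∩
        {ω | r < W (t j) ω - W (t 0) ω} := by
      ext ω
      simp [fp]
    rw [h1]
    refine MeasurableSet.inter ?_ ?_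
    · refine Finset.measurableSet_biInter _ fun i hi => ?_
      exact (hV i (Finset.mem_range.1 hi).le) measurableSet_Iic
    · exact (hV j le_rfl) measurableSet_Ioi
  have hB : MeasurableSet[MeasurableSpace.comap g inferInstance]
      {ω | 0 ≤ W (t n) ω - W (t j) ω} := by
    have h1 : {ω | 0 ≤ W (t n) ω - W (t j) ω} =
        g ⁻¹' ((fun x : ({j} : Finset ℕ) → ℝ => x ⟨j, Finset.mem_singleton_self j⟩) ⁻¹'
          Set.Ici 0) := by
      ext ω
      simp [hg, hτ]
    rw [h1]
    exact ⟨_, (measurable_pi_apply _) measurableSet_Ici, rfl⟩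
  exact (Indep_iff _ _ _).1 hI _ _ hA hB

lemma fp_meas (hW : IsBM P W) (t : ℕ → ℝ≥0) (r : ℝ) (j : ℕ) : MeasurableSet (fp W t r j) := by
  have h1 : fp W t r j = (⋂ i ∈ Finset.range j, {ω | W (t i) ω - W (t 0) ω ≤ r}) ∩
      {ω | r < W (t j) ω - W (t 0) ω} := by
    ext ω
    simp [fp]
  rw [h1]
  refine MeasurableSet.inter ?_ ?_
  · refine Finset.measurableSet_biInter _ fun i _ => ?_
    exact ((hW.meas _).sub (hW.meas _)) measurableSet_Iic
  · exact ((hW.meas _).sub (hW.meas _)) measurableSet_Ioi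

/-- Lévy's inequality -/
lemma levy (hW : IsBM P W) (t : ℕ → ℝ≥0) (ht : Monotone t) (n : ℕ) (r : ℝ) :
    P {ω | ∃ j ≤ n, r < W (t j) ω - W (t 0) ω} ≤
      2 * P {ω | r < W (t n) ω - W (t 0) ω} := by
  classical
  have h1 : {ω | ∃ j ≤ n, r < W (t j) ω - W (t 0) ω} ⊆
      ⋃ j ∈ Finset.range (n + 1), fp W t r j := by
    rintro ω ⟨j, hj, hr⟩
    have hex : ∃ j, r < W (t j) ω - W (t 0) ω := ⟨j, hr⟩
    rw [Set.mem_iUnion₂]
    refine ⟨Nat.find hex, ?_, ?_, Nat.find_spec hex⟩
    · rw [Finset.mem_range]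
      exact Nat.lt_succ_of_le ((Nat.find_min' hex hr).trans hj)
    · intro i hi
      exact not_lt.1 (Nat.find_min hex hi)
  have h2 : ∀ j ∈ Finset.range (n + 1), P (fp W t r j) ≤
      2 * P (fp W t r j ∩ {ω | 0 ≤ W (t n) ω - W (t j) ω}) := by
    intro j hj
    have hjn : j ≤ n := Nat.lt_succ_iff.1 (Finset.mem_range.1 hj)
    rw [fp_indep P W hW t ht n j hjn r]
    have h3 : (1 / 2 : ℝ≥0∞) ≤ P {ω | 0 ≤ W (t n) ω - W (t j) ω} := by
      have h4 := half_le (t n - t j)
      have hm : Measurable (fun ω => W (t n) ω - W (t j) ω) := (hW.meas _).sub (hW.meas _)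
      rw [← hW.law (t j) (t n) (ht hjn), Measure.map_apply hm measurableSet_Ici] at h4
      exact h4
    calc P (fp W t r j) = 2 * (P (fp W t r j) * (1 / 2)) := by
          rw [mul_comm (P (fp W t r j)), ← mul_assoc, one_div,
            ENNReal.mul_inv_cancel (by norm_num) (by norm_num), one_mul]
      _ ≤ _ := by gcongr
  have h5 : (⋃ j ∈ Finset.range (n + 1), (fp W t r j ∩ {ω | 0 ≤ W (t n) ω - W (t j) ω})) ⊆
      {ω | r < W (t n) ω - W (t 0) ω} := by
    intro ω hω
    rw [Set.mem_iUnion₂] at hω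
    obtain ⟨j, _, ⟨_, hr⟩, hp⟩ := hω
    have hp' : 0 ≤ W (t n) ω - W (t j) ω := hp
    change r < W (t n) ω - W (t 0) ω
    linarith
  calc P {ω | ∃ j ≤ n, r < W (t j) ω - W (t 0) ω}
      ≤ P (⋃ j ∈ Finset.range (n + 1), fp W t r j) := measure_mono h1
    _ ≤ ∑ j ∈ Finset.range (n + 1), P (fp W t r j) := measure_biUnion_finset_le _ _
    _ ≤ ∑ j ∈ Finset.range (n + 1),
        2 * P (fp W t r j ∩ {ω | 0 ≤ W (t n) ω - W (t j) ω}) := Finset.sum_le_sum h2
    _ = 2 * P (⋃ j ∈ Finset.range (n + 1),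
        (fp W t r j ∩ {ω | 0 ≤ W (t n) ω - W (t j) ω})) := by
        rw [← Finset.mul_sum, measure_biUnion_finset]
        · intro i _ j _ hij
          rw [Function.onFun, Set.disjoint_left]
          rintro ω ⟨⟨hi1, hi2⟩, _⟩ ⟨⟨hj1, hj2⟩, _⟩
          rcases lt_or_gt_of_ne hij with h | h
          · exact absurd (hj1 i h) (not_le.2 hi2)
          · exact absurd (hi1 j h) (not_le.2 hj2)
        · intro j _
          exact (fp_meas P W hW t r j).inter
            (((hW.meas _).sub (hW.meas _)) measurableSet_Ici)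
    _ ≤ _ := by gcongr

end Levy

/-- Gaussian mass of a symmetric interval -/
lemma gauss_lower (s : ℝ≥0) (hs : 0 < s) (r : ℝ) (hr : 0 ≤ r) :
    ENNReal.ofReal (2 * (√(2 * Real.pi))⁻¹ * Real.exp (-(1 / 2)) * min 1 (r / √(s : ℝ))) ≤
      gaussianReal 0 s (Set.Icc (-r) r) := by
  have hs' : (0 : ℝ) < s := by exact_mod_cast hs
  set ρ : ℝ := min (√(s : ℝ)) r with hρ
  have hsq : 0 < √(s : ℝ) := Real.sqrt_pos.2 hs'
  have hρ0 : 0 ≤ ρ := le_min hsq.le hr
  have h1 : gaussianReal 0 s (Set.Icc (-ρ) ρ) ≤ gaussianReal 0 s (Set.Icc (-r) r) := by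
    apply measure_mono
    apply Set.Icc_subset_Icc
    · have := min_le_right (√(s : ℝ)) r
      simp only [hρ]
      linarith
    · exact min_le_right _ _
  refine le_trans ?_ h1
  rw [gaussianReal_apply 0 hs.ne']
  have h2 : ∀ x ∈ Set.Icc (-ρ) ρ,
      ENNReal.ofReal ((√(2 * Real.pi * s))⁻¹ * Real.exp (-(1 / 2))) ≤ gaussianPDF 0 s x := by
    intro x hx
    rw [gaussianPDF, gaussianPDFReal]
    apply ENNReal.ofReal_le_ofReal
    apply mul_le_mul_of_nonneg_left _ (by positivity)
    apply Real.exp_le_exp.2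
    rw [sub_zero]
    have hx2 : x ^ 2 ≤ s := by
      have hxa : |x| ≤ √(s : ℝ) := (abs_le.2 hx).trans (min_le_left _ _)
      calc x ^ 2 = |x| ^ 2 := (sq_abs x).symm
        _ ≤ (√(s : ℝ)) ^ 2 := by gcongr
        _ = s := Real.sq_sqrt hs'.le
    rw [neg_div, neg_le_neg_iff, div_le_div_iff₀ (by positivity) (by norm_num)]
    linarith
  calc ENNReal.ofReal (2 * (√(2 * Real.pi))⁻¹ * Real.exp (-(1 / 2)) * min 1 (r / √(s : ℝ)))
      = ENNReal.ofReal ((√(2 * Real.pi * s))⁻¹ * Real.exp (-(1 / 2))) *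
          volume (Set.Icc (-ρ) ρ) := by
        rw [Real.volume_Icc, ← ENNReal.ofReal_mul (by positivity)]
        congr 1
        have h3 : min 1 (r / √(s : ℝ)) = ρ / √(s : ℝ) := by
          rw [hρ, ← min_div_div_right hsq.le, div_self hsq.ne']
        rw [h3, Real.sqrt_mul (by positivity) (s : ℝ), mul_inv]
        field_simp
        ring
    _ = ∫⁻ _ in Set.Icc (-ρ) ρ,
          ENNReal.ofReal ((√(2 * Real.pi * s))⁻¹ * Real.exp (-(1 / 2))) := by
        rw [setLIntegral_const]
    _ ≤ ∫⁻ x in Set.Icc (-ρ) ρ, gaussianPDF 0 s x :=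
        setLIntegral_mono (measurable_gaussianPDF 0 s) h2

/-- symmetric interval and tails -/
lemma gauss_tail (s : ℝ≥0) (r : ℝ) :
    gaussianReal 0 s (Set.Icc (-r) r) + 2 * gaussianReal 0 s (Set.Ioi r) ≤ 1 ∨ r < 0 := by
  by_cases hr : r < 0
  · exact Or.inr hr
  left
  rw [not_lt] at hr
  have h1 : gaussianReal 0 s (Set.Iio (-r)) = gaussianReal 0 s (Set.Ioi r) := by
    have h : (gaussianReal 0 s).map (fun x => -x) = gaussianReal 0 s := by
      have := gaussianReal_map_neg (μ := 0) (v := s)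
      rwa [neg_zero] at this
    calc gaussianReal 0 s (Set.Iio (-r))
        = ((gaussianReal 0 s).map (fun x => -x)) (Set.Iio (-r)) := by rw [h]
      _ = gaussianReal 0 s ((fun x => -x) ⁻¹' Set.Iio (-r)) :=
          Measure.map_apply measurable_neg measurableSet_Iio
      _ = gaussianReal 0 s (Set.Ioi r) := by
          congr 1
          ext x
          simp
  have h2 : Disjoint (Set.Iio (-r)) (Set.Ioi r) := by
    rw [Set.disjoint_left]
    intro x hx hx'
    simp only [Set.mem_Iio, Set.mem_Ioi] at hx hx'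
    linarith
  have h3 : Disjoint (Set.Icc (-r) r) (Set.Iio (-r) ∪ Set.Ioi r) := by
    rw [Set.disjoint_left]
    rintro x ⟨hx1, hx2⟩ (hx | hx)
    · exact absurd hx1 (not_le.2 hx)
    · exact absurd hx2 (not_le.2 hx)
  rw [two_mul]
  nth_rewrite 1 [← h1]
  rw [← measure_union h2 measurableSet_Ioi,
    ← measure_union h3 (measurableSet_Iio.union measurableSet_Ioi)]
  exact prob_le_one

theorem taskR1 : TaskR1.{v} := by
  refine ⟨2 * (√(2 * Real.pi))⁻¹ * Real.exp (-(1 / 2)), by positivity, ?_⟩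
  intro Ω _ P _ W hW s hs r hr
  set a : ℝ≥0∞ :=
    ENNReal.ofReal (2 * (√(2 * Real.pi))⁻¹ * Real.exp (-(1 / 2)) * min 1 (r / √(s : ℝ))) with ha
  -- the events on the grids
  let D : ℕ → Set Ω := fun k => {ω | ∀ j ≤ k.factorial, W (gr s k.factorial j) ω - W 0 ω ≤ r}
  have hDmeas : ∀ k, MeasurableSet (D k) := by
    intro k
    have h1 : D k = ⋂ j ∈ Finset.range (k.factorial + 1),
        {ω | W (gr s k.factorial j) ω - W 0 ω ≤ r} := by
      ext ω
      simp [D, Nat.lt_succ_iff]
    rw [h1]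
    exact Finset.measurableSet_biInter _ fun j _ =>
      ((hW.meas _).sub (hW.meas _)) measurableSet_Iic
  have hDlow : ∀ k, a ≤ P (D k) := by
    intro k
    have hl := levy P W hW (gr s k.factorial) (gr_mono s _) k.factorial r
    rw [gr_zero, gr_self s _ (Nat.factorial_pos k)] at hl
    have hlaw : P {ω | r < W s ω - W 0 ω} = gaussianReal 0 s (Set.Ioi r) := by
      have h1 := hW.law 0 s bot_le
      rw [tsub_zero] at h1
      have hm : Measurable (fun ω => W s ω - W 0 ω) := (hW.meas _).sub (hW.meas _)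
      rw [← h1, Measure.map_apply hm measurableSet_Ioi]
      rfl
    rw [hlaw] at hl
    have hc : (D k)ᶜ = {ω | ∃ j ≤ k.factorial, r < W (gr s k.factorial j) ω - W 0 ω} := by
      ext ω
      simp only [D, Set.mem_compl_iff, Set.mem_setOf_eq, not_forall, not_le, exists_prop]
    rw [← hc] at hl
    have h1 : a ≤ gaussianReal 0 s (Set.Icc (-r) r) := gauss_lower s hs r hr
    have h2 : gaussianReal 0 s (Set.Icc (-r) r) + 2 * gaussianReal 0 s (Set.Ioi r) ≤ 1 :=
      (gauss_tail s r).resolve_right (not_lt.2 hr)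
    have h3 : a + P (D k)ᶜ ≤ P (D k) + P (D k)ᶜ := by
      rw [prob_add_prob_compl (hDmeas k)]
      exact (add_le_add h1 hl).trans h2
    exact (ENNReal.add_le_add_iff_right (measure_ne_top P _)).1 h3
  have hanti : Antitone D := by
    apply antitone_nat_of_succ_le
    intro k ω hω j hj
    have h1 := hω (j * (k + 1)) (by
      rw [Nat.factorial_succ, mul_comm (k + 1)]
      exact Nat.mul_le_mul_right _ hj)
    have h2 : gr s (k + 1).factorial (j * (k + 1)) = gr s k.factorial j := by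
      unfold gr
      congr 2
      rw [Nat.factorial_succ]
      push_cast
      have hk : ((k : ℝ≥0) + 1) ≠ 0 := by positivity
      rw [mul_comm (j : ℝ≥0), mul_div_mul_left _ _ hk]
    rwa [h2] at h1
  have hlim : a ≤ P (⋂ k, D k) := by
    have h1 := tendsto_measure_iInter_atTop (μ := P)
      (fun k => (hDmeas k).nullMeasurableSet) hanti ⟨0, measure_ne_top P _⟩
    exact ge_of_tendsto' h1 hDlow
  refine hlim.trans (measure_mono_ae ?_)
  filter_upwards [hW.zero] with ω h0 hω
  change sp s (fun u => W u ω) ≤ r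
  have hω := Set.mem_iInter.1 hω
  unfold sp
  apply ciSup_le
  rintro ⟨i, k⟩
  have h1 : ∀ j ≤ (k + 1).factorial, W (gr s (k + 1).factorial j) ω - W 0 ω ≤ r := hω (k + 1)
  by_cases hik : i ≤ k + 1
  · have h2 := h1 (i * k.factorial) (by
      rw [Nat.factorial_succ]
      exact Nat.mul_le_mul_right _ hik)
    have h3 : gr s (k + 1).factorial (i * k.factorial) = tq s (i, k) := by
      unfold gr tq
      congr 2
      rw [Nat.factorial_succ]
      push_cast
      have hk : (k.factorial : ℝ≥0) ≠ 0 := by exact_mod_cast (Nat.factorial_pos k).ne'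
      rw [mul_div_mul_right _ _ hk]
    rw [h3, h0, sub_zero] at h2
    exact h2
  · have h2 := h1 _ le_rfl
    rw [gr_self s _ (Nat.factorial_pos _), h0, sub_zero] at h2
    have h3 : tq s (i, k) = s := by
      unfold tq
      have h4 : (1 : ℝ≥0) ≤ (i : ℝ≥0) / (k + 1) := by
        rw [one_le_div (by positivity)]
        have : k + 1 ≤ i := by omega
        exact_mod_cast this
      rw [min_eq_right h4, mul_one]
    rw [h3]
    exact h2

end Pool.Agent.H826R3.BT
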